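import Mathlib
import Pool.Agent.H.MP_a6415b_co.Game

set_option autoImplicit false

namespace Pool.Agent.Results.MP_a6415b_co.Unbounded

open Pool.Agent.H.MP_a6415b_co

/-- Token graph of the play in which the `i`-th token is put on the vertex `l.get i`. -/
def tokenGraph {n : ℕ} (G : SimpleGraph (Fin n)) (l : List (Fin n)) : SimpleGraph (Fin l.length) :=
  SimpleGraph.fromRel fun i j => l.get i = l.get j ∨ G.Adj (l.get i) (l.get j)

/-- The online strategy `σ` (colour of the newest token as a function of the placements so far)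
colours every legal play properly and with at most `N` colours. -/
def Wins {n : ℕ} (G : SimpleGraph (Fin n)) (w N : ℕ) (σ : List (Fin n) → ℕ) : Prop :=
  ∀ l : List (Fin n), (tokenGraph G l).Colorable w →
    (∀ i j, (tokenGraph G l).Adj i j → σ (l.take (i + 1)) ≠ σ (l.take (j + 1))) ∧
    (Finset.univ.image fun i : Fin l.length => σ (l.take (i + 1))).card ≤ N

/-- The value `f(w,G)` of the game. -/
noncomputable def value {n : ℕ} (G : SimpleGraph (Fin n)) (w : ℕ) : ℕ :=
  sInf {N | ∃ σ, Wins G w N σ}

theorem wins_trivial {n : ℕ} (G : SimpleGraph (Fin n)) (w : ℕ) :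
    Wins G w (n * w) List.length := by
  intro l hl
  constructor
  · intro i j hij
    have h1 := i.2
    have h2 := j.2
    have h3 : (i : ℕ) ≠ j := fun h => hij.ne (Fin.ext h)
    rw [List.length_take, List.length_take]
    omega
  · obtain ⟨C⟩ := hl
    refine Finset.card_image_le.trans ?_
    have : Function.Injective fun i : Fin l.length => (l.get i, C i) := by
      intro i j e
      simp only [Prod.mk.injEq] at e
      by_contra hne
      exact C.valid (show (tokenGraph G l).Adj i j from
        (SimpleGraph.fromRel_adj _ _ _).2 ⟨hne, Or.inl (Or.inl e.1)⟩) e.2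
    simpa using Fintype.card_le_of_injective _ this

theorem lower {n : ℕ} (G : SimpleGraph (Fin n)) (j : ℕ) (hG : P j G) (w N : ℕ)
    (σ : List (Fin n) → ℕ) (hσ : Wins G w N σ) : j * (w / 2) ≤ 2 * N := by
  have leg : ∀ l, Good G (w / 2) l → (tokenGraph G l).Colorable w := fun l hl =>
    (good_col G _ l hl).mono (by omega)
  obtain ⟨l, s, R, U, c, d, -, k, hn⟩ := hG (w / 2) σ (by
    intro l hl a u b v c e huv
    have h1 : a.length < l.length := by rw [e]; simp
    have h2 : a.length + 1 + b.length < l.length := by rw [e]; simp; omega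
    have := (hσ l (leg l hl)).1 ⟨_, h1⟩ ⟨_, h2⟩ ((SimpleGraph.fromRel_adj _ _ _).2
      ⟨fun h => by simp only [Fin.mk.injEq] at h; omega, Or.inl (by
        subst e
        have e1 : (a ++ u :: (b ++ v :: c)).get ⟨_, h1⟩ = u := by simp
        have e2 : (a ++ u :: (b ++ v :: c)).get ⟨_, h2⟩ = v := by
          simp [List.getElem_append_right, add_assoc, add_comm 1]
        rw [e1, e2]; exact huv)⟩)
    have t1 : l.take (a.length + 1) = a ++ [u] := by
      rw [e, show a ++ u :: (b ++ v :: c) = (a ++ [u]) ++ (b ++ v :: c) by simp]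
      exact List.take_left' (by simp)
    have t2 : l.take (a.length + 1 + b.length + 1) = a ++ u :: (b ++ [v]) := by
      rw [e, show a ++ u :: (b ++ v :: c) = (a ++ u :: (b ++ [v])) ++ c by simp]
      exact List.take_left' (by simp; omega)
    simp only [t1, t2] at this
    exact this)
  refine hn.trans (Nat.mul_le_mul_left _ (le_trans (Finset.card_le_card ?_)
    (hσ l (leg l ⟨c, s, d⟩)).2))
  intro x hx
  obtain ⟨a, u, c', e, -, hk⟩ := k x hx
  have h1 : a.length < l.length := by rw [e]; simp
  refine Finset.mem_image.2 ⟨⟨_, h1⟩, Finset.mem_univ _, ?_⟩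
  have t1 : l.take (a.length + 1) = a ++ [u] := by
    rw [e, show a ++ u :: c' = (a ++ [u]) ++ c' by simp]
    exact List.take_left' (by simp)
  simp only [t1]
  exact hk

theorem result : ∀ c : ℝ, ∃ (n : ℕ) (G : SimpleGraph (Fin n)),
    ∀ w : ℕ, 2 ≤ w → c * w < value G w := by
  intro c
  obtain ⟨j, hj⟩ := exists_nat_gt c
  obtain ⟨n, G, hG⟩ := exists_P_fin (6 * j)
  refine ⟨n, G, fun w hw => ?_⟩
  obtain ⟨σ, hσ⟩ : value G w ∈ {N | ∃ σ, Wins G w N σ} :=
    Nat.sInf_mem ⟨_, _, wins_trivial G w⟩
  have h1 := lower G _ hG w _ σ hσ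
  have h2 : j * w ≤ value G w := by
    have : w ≤ 3 * (w / 2) := by omega
    nlinarith
  have h3 : (j : ℝ) * w ≤ value G w := by exact_mod_cast h2
  have h4 : (0 : ℝ) < w := by exact_mod_cast (by omega : 0 < w)
  nlinarith

end Pool.Agent.Results.MP_a6415b_co.Unbounded
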